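import Pool.Agent.H381R4.CM.Stubs

/-!
# Symmetric polytopes are completely mixable (task POL of the project CM)
-/

set_option autoImplicit false
open MeasureTheory Matrix Filter Topology
open scoped ENNReal BigOperators Pointwise

namespace Pool.Agent.H381CM

section
variable {d : ℕ} {ι : Type} [Fintype ι]

theorem POL_cont_dot (w : V d) : Continuous fun x : V d => w ⬝ᵥ x :=
  Continuous.dotProduct continuous_const continuous_id

theorem POL_cont_XX (p : Polynomial ℝ) : Continuous (XX p) := by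
  unfold XX
  exact p.continuous.comp (Real.continuous_exp.comp continuous_neg)

theorem POL_cont_gg (u : ι → V d) (p : ι → Polynomial ℝ) : Continuous (gg u p) := by
  unfold gg
  exact continuous_finsetProd _ fun k _ => (POL_cont_XX _).comp ((POL_cont_dot (u k)).pow 2)

theorem POL_nonneg (hB : S_BMP) (u : ι → V d) (j : ℕ) (x : V d) :
    0 ≤ gg u (fun _ => bump (j + 1)) x :=
  Finset.prod_nonneg fun k _ => (hB.2.1 (j + 1) (by omega) _ (sq_nonneg _)).1

theorem POL_bound (hB : S_BMP) (hP : S_PDF) (u : ι → V d) (j : ℕ) (x : V d) :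
    gg u (fun _ => bump (j + 1)) x ≤
      (2 * Real.exp 1) ^ (Fintype.card ι) * Real.exp (-(x ⬝ᵥ (AA u fun _ => 1) *ᵥ x)) := by
  have h1 : gg u (fun _ => bump (j + 1)) x ≤
      ∏ k, (2 * Real.exp 1 * Real.exp (-((u k ⬝ᵥ x) ^ 2))) :=
    Finset.prod_le_prod (fun k _ => (hB.2.1 (j + 1) (by omega) _ (sq_nonneg _)).1)
      fun k _ => (hB.2.1 (j + 1) (by omega) _ (sq_nonneg _)).2.2
  refine h1.trans (le_of_eq ?_)
  rw [Finset.prod_mul_distrib, Finset.prod_const, ← Real.exp_sum, (hP d ι u fun _ => 1).1 x,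
    Finset.card_univ, ← Finset.sum_neg_distrib]
  simp only [one_mul]

theorem POL_lim (hB : S_BMP) (u : ι → V d) (x : V d) (hx : ¬ ∃ k, |u k ⬝ᵥ x| = 1) :
    Tendsto (fun j : ℕ => gg u (fun _ => bump (j + 1)) x) atTop
      (𝓝 ((Pol u).indicator (fun _ => (1 : ℝ)) x)) := by
  classical
  by_cases hP : x ∈ Pol u
  · rw [Set.indicator_of_mem hP]
    have h1 : Tendsto (fun j : ℕ => ∏ k, XX (bump (j + 1)) ((u k ⬝ᵥ x) ^ 2)) atTop
        (𝓝 (∏ _k : ι, (1 : ℝ))) := by
      refine tendsto_finsetProd _ fun k _ => ?_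
      have h2 : |u k ⬝ᵥ x| < 1 := lt_of_le_of_ne (hP k) fun h => hx ⟨k, h⟩
      have h3 : (u k ⬝ᵥ x) ^ 2 < 1 := by
        rw [← sq_abs]
        have := abs_nonneg (u k ⬝ᵥ x)
        nlinarith
      exact (tendsto_add_atTop_iff_nat 1).2 (hB.2.2.1 _ (sq_nonneg _) h3)
    rw [Finset.prod_const_one] at h1
    exact h1
  · rw [Set.indicator_of_notMem hP]
    have h0 : ∃ k, 1 < |u k ⬝ᵥ x| := by
      by_contra hc
      push Not at hc
      exact hP hc
    obtain ⟨k, hk⟩ := h0
    have h3 : 1 < (u k ⬝ᵥ x) ^ 2 := by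
      rw [← sq_abs]
      nlinarith
    have h4 := (tendsto_add_atTop_iff_nat 1).2 (hB.2.2.2 _ h3)
    refine squeeze_zero (fun j => POL_nonneg hB u j x) (fun j => ?_) h4
    show ∏ i, XX (bump (j + 1)) ((u i ⬝ᵥ x) ^ 2) ≤ XX (bump (j + 1)) ((u k ⬝ᵥ x) ^ 2)
    rw [← Finset.mul_prod_erase _ _ (Finset.mem_univ k)]
    have h5 := hB.2.1 (j + 1) (by omega) _ (sq_nonneg (u k ⬝ᵥ x))
    have h6 : ∏ i ∈ Finset.univ.erase k, XX (bump (j + 1)) ((u i ⬝ᵥ x) ^ 2) ≤ 1 :=
      Finset.prod_le_one (fun i _ => (hB.2.1 (j + 1) (by omega) _ (sq_nonneg _)).1)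
        fun i _ => (hB.2.1 (j + 1) (by omega) _ (sq_nonneg _)).2.1
    exact mul_le_of_le_one_right h5.1 h6

end

theorem T_POL (hPCM : S_PCM) (hBMP : S_BMP) (hCLO : S_CLO) (hPTP : S_PTP) (hGAU : S_GAU)
    (hPDF : S_PDF) : S_POL := by
  intro d n hn ι _ u hu
  obtain ⟨hcomp, hvpos, hvlt, hnull⟩ := hPTP d ι u hu
  set g : ℕ → V d → ℝ := fun j => gg u (fun _ => bump (j + 1)) with hg
  set h : V d → ℝ := fun x => (2 * Real.exp 1) ^ (Fintype.card ι) *
    Real.exp (-(x ⬝ᵥ (AA u fun _ => 1) *ᵥ x)) with hh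
  have hint : Integrable h :=
    (hGAU d _ ((hPDF d ι u fun _ => 1).2 hu fun _ => one_pos)).1.const_mul _
  have hg0 : ∀ j x, 0 ≤ g j x := fun j x => POL_nonneg hBMP u j x
  have hgh : ∀ j x, g j x ≤ h x := fun j x => POL_bound hBMP hPDF u j x
  have hh0 : ∀ x, 0 ≤ h x := fun x => (hg0 0 x).trans (hgh 0 x)
  have hgc : ∀ j, Continuous (g j) := fun j => POL_cont_gg u _
  have hgint : ∀ j, Integrable (g j) := by
    intro j
    refine hint.mono' (hgc j).aestronglyMeasurable (Eventually.of_forall fun x => ?_)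
    rw [Real.norm_of_nonneg (hg0 j x)]
    exact hgh j x
  have hPm : MeasurableSet (Pol u) := hcomp.measurableSet
  have hae : ∀ᵐ x : V d, Tendsto (fun j => g j x) atTop
      (𝓝 ((Pol u).indicator (fun _ => (1 : ℝ)) x)) := by
    have h1 : ∀ᵐ x : V d, ¬ ∃ k, |u k ⬝ᵥ x| = 1 := by
      rw [ae_iff]
      simpa using hnull
    exact h1.mono fun x hx => POL_lim hBMP u x hx
  -- dominated convergence
  have hdom : ∀ φ : BoundedContinuousFunction (V d) ℝ,
      Tendsto (fun j => ∫ x, g j x * φ x) atTop (𝓝 (∫ x in Pol u, φ x)) := by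
    intro φ
    rw [← integral_indicator hPm]
    have e : (fun x => (Pol u).indicator (fun y => φ y) x) =
        fun x => (Pol u).indicator (fun _ => (1 : ℝ)) x * φ x := by
      funext x
      by_cases hx : x ∈ Pol u
      · rw [Set.indicator_of_mem hx, Set.indicator_of_mem hx, one_mul]
      · rw [Set.indicator_of_notMem hx, Set.indicator_of_notMem hx, zero_mul]
    have e2 : (∫ x, (Pol u).indicator (fun y => φ y) x) =
        ∫ x, (Pol u).indicator (fun _ => (1 : ℝ)) x * φ x := by
      rw [show (fun x => (Pol u).indicator (fun y => φ y) x) = _ from e]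
    rw [e2]
    refine tendsto_integral_of_dominated_convergence (fun x => h x * ‖φ‖) ?_ ?_ ?_ ?_
    · exact fun j => ((hgc j).mul φ.continuous).aestronglyMeasurable
    · exact hint.mul_const _
    · intro j
      refine Eventually.of_forall fun x => ?_
      rw [norm_mul, Real.norm_of_nonneg (hg0 j x)]
      exact mul_le_mul (hgh j x) (φ.norm_coe_le_norm x) (norm_nonneg _) (hh0 x)
    · exact hae.mono fun x hx => hx.mul_const _
  have hZ : Tendsto (fun j => ∫ x, g j x) atTop (𝓝 (volume.real (Pol u))) := by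
    have h1 := hdom (BoundedContinuousFunction.const (V d) (1 : ℝ))
    simp only [BoundedContinuousFunction.const_apply, mul_one] at h1
    rw [setIntegral_const, smul_eq_mul, mul_one] at h1
    exact h1
  set v : ℝ := volume.real (Pol u) with hv
  have hv0 : 0 < v := ENNReal.toReal_pos hvpos.ne' hvlt.ne
  obtain ⟨J, hJ⟩ := (hZ.eventually (eventually_ge_nhds (half_lt_self hv0))).exists_forall_of_atTop
  set Z : ℕ → ℝ := fun j => ∫ x, g (j + J) x with hZdef
  have hZv : ∀ j, v / 2 ≤ Z j := fun j => hJ (j + J) (Nat.le_add_left _ _)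
  have hZ0 : ∀ j, 0 < Z j := fun j => (half_pos hv0).trans_le (hZv j)
  have hZlim : Tendsto Z atTop (𝓝 v) := (tendsto_add_atTop_iff_nat J).2 hZ
  set μ : ℕ → Measure (V d) := fun j =>
    volume.withDensity fun x => ENNReal.ofReal (g (j + J) x / Z j) with hμ
  have hmeas : ∀ j, Measurable fun x => ENNReal.ofReal (g (j + J) x / Z j) := fun j =>
    ((hgc (j + J)).measurable.div_const _).ennreal_ofReal
  refine hCLO d n (by omega) μ (unif (Pol u)) ?_ ?_ ?_ ?_ ?_
  · intro j
    refine ⟨?_⟩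
    show (volume.withDensity fun x => ENNReal.ofReal (g (j + J) x / Z j)) Set.univ = 1
    rw [withDensity_apply _ MeasurableSet.univ, Measure.restrict_univ,
      ← ofReal_integral_eq_lintegral_ofReal ((hgint (j + J)).div_const _)
        (Eventually.of_forall fun x => div_nonneg (hg0 _ x) (hZ0 j).le),
      integral_div, div_self (hZ0 j).ne', ENNReal.ofReal_one]
  · refine ⟨?_⟩
    show ((volume (Pol u))⁻¹ • volume.restrict (Pol u)) Set.univ = 1
    rw [Measure.smul_apply, Measure.restrict_apply_univ, smul_eq_mul]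
    exact ENNReal.inv_mul_cancel hvpos.ne' hvlt.ne
  · intro j
    exact hPCM d n hn ι u (fun _ => bump (j + J + 1)) hu (fun _ => hBMP.1 _ (by omega))
      (hgint (j + J)) (hZ0 j)
  · -- tightness
    intro ε hε
    set ν : Measure (V d) := volume.withDensity fun x => ENNReal.ofReal (h x / (v / 2)) with hν
    have hνfin : IsFiniteMeasure ν :=
      isFiniteMeasure_withDensity_ofReal (hint.div_const _).hasFiniteIntegral
    obtain ⟨K, hK, hKν⟩ := (isTightMeasureSet_iff_exists_isCompact_measure_compl_le.1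
      (isTightMeasureSet_singleton (μ := ν))) ε hε
    refine ⟨K, hK, fun j => le_trans ?_ (hKν ν rfl)⟩
    rw [hν, hμ]
    simp only
    rw [withDensity_apply _ hK.measurableSet.compl, withDensity_apply _ hK.measurableSet.compl]
    refine lintegral_mono fun x => ENNReal.ofReal_le_ofReal ?_
    exact div_le_div₀ (hh0 x) (hgh _ x) (half_pos hv0) (hZv j)
  · intro φ
    have e1 : ∀ j, ∫ x, φ x ∂μ j = (∫ x, g (j + J) x * φ x) / Z j := by
      intro j
      show ∫ x, φ x ∂(volume.withDensity fun x => ENNReal.ofReal (g (j + J) x / Z j)) = _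
      rw [integral_withDensity_eq_integral_toReal_smul (hmeas j)
        (Eventually.of_forall fun x => ENNReal.ofReal_lt_top), ← integral_div]
      refine integral_congr_ae (Eventually.of_forall fun x => ?_)
      show (ENNReal.ofReal (g (j + J) x / Z j)).toReal • φ x = g (j + J) x * φ x / Z j
      rw [ENNReal.toReal_ofReal (div_nonneg (hg0 _ x) (hZ0 j).le), smul_eq_mul]
      ring
    have e2 : ∫ x, φ x ∂(unif (Pol u)) = (∫ x in Pol u, φ x) / v := by
      show ∫ x, φ x ∂((volume (Pol u))⁻¹ • volume.restrict (Pol u)) = _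
      rw [integral_smul_measure, ENNReal.toReal_inv, smul_eq_mul, div_eq_inv_mul]
      rfl
    rw [e2]
    simp only [e1]
    exact ((tendsto_add_atTop_iff_nat J).2 (hdom φ)).div hZlim hv0.ne'

end Pool.Agent.H381CM
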